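import Pool.Agent.W221.NS.Stm

/-!
Project MD, part BASE: the first step, smallness of the energy.
-/

set_option autoImplicit false

open MeasureTheory Set Metric
open scoped ContDiff

namespace W605.MD

open H459R3.NS W221.NS

/-! ### The cut-off functions -/

/-- the cut-off function in time -/
noncomputable def chi (t : ℝ) : ℝ := Real.smoothTransition ((t + 3 / 4) * (16 / 3))

lemma chi_smooth : ContDiff ℝ ∞ chi := by
  unfold chi
  exact Real.smoothTransition.contDiff.comp ((contDiff_id.add contDiff_const).mul contDiff_const)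

lemma chi_nonneg (t : ℝ) : 0 ≤ chi t := Real.smoothTransition.nonneg _

lemma chi_le_one (t : ℝ) : chi t ≤ 1 := Real.smoothTransition.le_one _

lemma chi_zero {t : ℝ} (h : t ≤ -3 / 4) : chi t = 0 :=
  Real.smoothTransition.zero_of_nonpos (by linarith)

lemma chi_one {t : ℝ} (h : -9 / 16 ≤ t) : chi t = 1 :=
  Real.smoothTransition.one_of_one_le (by linarith)

/-- the square of the cut-off function in space -/
noncomputable def k2 (z : V) : ℝ := kap z ^ 2

lemma kap_smooth : ContDiff ℝ ∞ (fun z => kap z) := kap.contDiff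

lemma k2_smooth : ContDiff ℝ ∞ k2 := kap_smooth.pow 2

lemma k2_cont : Continuous k2 := k2_smooth.continuous

lemma k2_nonneg (z : V) : 0 ≤ k2 z := sq_nonneg _

lemma k2_le_one (z : V) : k2 z ≤ 1 := by
  unfold k2
  have h1 : 0 ≤ kap z := kap.nonneg
  have h2 : kap z ≤ 1 := kap.le_one
  nlinarith

lemma k2_zero {z : V} (hz : z ∉ ball (0 : V) 1) : k2 z = 0 := by
  unfold k2
  have : kap z = 0 := by
    apply kap.zero_of_le_dist
    rw [mem_ball, not_lt] at hz
    exact hz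
  rw [this]; norm_num

lemma k2_one {z : V} (hz : z ∈ ball (0 : V) (3 / 4)) : k2 z = 1 := by
  unfold k2
  have : kap z = 1 := kap.one_of_mem_closedBall (ball_subset_closedBall hz)
  rw [this]; norm_num

lemma k2_tsupport : tsupport k2 ⊆ closedBall (0 : V) 1 := by
  apply closure_minimal _ isClosed_closedBall
  intro z hz
  by_contra h
  exact hz (k2_zero (fun h' => h (ball_subset_closedBall h')))

lemma pd_tsupport (j : Fin 3) (f : V → ℝ) : tsupport (pd j f) ⊆ tsupport f := by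
  apply closure_minimal _ (isClosed_tsupport f)
  intro z hz
  apply support_fderiv_subset ℝ
  intro h
  exact hz (by unfold pd; rw [h]; rfl)

lemma pd_smooth (j : Fin 3) {f : V → ℝ} (hf : ContDiff ℝ ∞ f) : ContDiff ℝ ∞ (pd j f) := by
  unfold pd
  exact (hf.fderiv_right (m := ∞) (by simp)).clm_apply contDiff_const

lemma lap_cont {f : V → ℝ} (hf : ContDiff ℝ ∞ f) : Continuous (lap f) := by
  unfold lap
  exact continuous_finsetSum _ fun j _ => (pd_smooth j (pd_smooth j hf)).continuous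

lemma lap_k2_zero {z : V} (hz : z ∉ closedBall (0 : V) 1) : lap k2 z = 0 := by
  unfold lap
  apply Finset.sum_eq_zero
  intro j _
  by_contra h
  exact hz (k2_tsupport (pd_tsupport j k2 (pd_tsupport j _ (subset_tsupport _ h))))

lemma lap_k2_bound : ∃ L : ℝ, 0 ≤ L ∧ ∀ z, |lap k2 z| ≤ L := by
  obtain ⟨L, hL⟩ := (isCompact_closedBall (0 : V) 1).exists_bound_of_continuousOn
    (lap_cont k2_smooth).continuousOn
  have h0 : (0 : V) ∈ closedBall (0 : V) 1 := by simp
  have hL0 : 0 ≤ L := (norm_nonneg _).trans (hL 0 h0)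
  refine ⟨L, hL0, fun z => ?_⟩
  by_cases hz : z ∈ closedBall (0 : V) 1
  · exact hL z hz
  · rw [lap_k2_zero hz, abs_zero]; exact hL0

lemma dchi_bound : ∃ N : ℝ, 0 ≤ N ∧ ∀ t ∈ Ioo (-1 : ℝ) 0, |deriv (fun s => chi s ^ 2) t| ≤ N := by
  have hc : ContDiff ℝ ∞ (fun s => chi s ^ 2) := chi_smooth.pow 2
  have hd : Continuous (deriv (fun s => chi s ^ 2)) := hc.continuous_deriv (by simp)
  obtain ⟨N, hN⟩ := (isCompact_Icc (a := (-1 : ℝ)) (b := 0)).exists_bound_of_continuousOn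
    hd.continuousOn
  have h0 : (0 : ℝ) ∈ Icc (-1 : ℝ) 0 := by constructor <;> norm_num
  refine ⟨N, (norm_nonneg _).trans (hN 0 h0), fun t ht => hN t (Ioo_subset_Icc_self ht)⟩

/-- the test function -/
noncomputable def PH (t : ℝ) (z : V) : ℝ := k2 z * chi t ^ 2

lemma PH_smooth : ContDiff ℝ ∞ (fun z : ℝ × V => PH z.1 z.2) :=
  (k2_smooth.comp contDiff_snd).mul ((chi_smooth.comp contDiff_fst).pow 2)

lemma PH_nonneg (t : ℝ) (z : V) : 0 ≤ PH t z := mul_nonneg (k2_nonneg z) (sq_nonneg _)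

lemma pd_mul_const (j : Fin 3) {f : V → ℝ} (hf : ContDiff ℝ ∞ f) (c : ℝ) :
    pd j (fun z => f z * c) = fun z => pd j f z * c := by
  funext z
  unfold pd
  rw [fderiv_mul_const (hf.differentiable (by simp) z)]
  simp [mul_comm]

lemma lap_mul_const {f : V → ℝ} (hf : ContDiff ℝ ∞ f) (c : ℝ) (z : V) :
    lap (fun z => f z * c) z = lap f z * c := by
  unfold lap
  rw [Finset.sum_mul]
  apply Finset.sum_congr rfl
  intro j _
  rw [pd_mul_const j hf, pd_mul_const j (pd_smooth j hf)]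

lemma adv_mul_const (v : V → V) {f : V → ℝ} (hf : ContDiff ℝ ∞ f) (c : ℝ) (z : V) :
    adv v (fun z => f z * c) z = adv v f z * c := by
  unfold adv
  rw [Finset.sum_mul]
  apply Finset.sum_congr rfl
  intro j _
  rw [pd_mul_const j hf]; ring

lemma nsq_nonneg (v : V → V) (z : V) : 0 ≤ nsq v z := Finset.sum_nonneg fun _ _ => sq_nonneg _

lemma gsq_nonneg (v : V → V) (z : V) : 0 ≤ gsq v z :=
  Finset.sum_nonneg fun _ _ => Finset.sum_nonneg fun _ _ => sq_nonneg _

lemma nsq_cont {v : V → V} (hv : ContDiff ℝ ∞ v) : Continuous (nsq v) := by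
  unfold nsq
  exact continuous_finsetSum _ fun i _ => ((continuous_apply i).comp hv.continuous).pow 2

lemma intOn_ball {f : V → ℝ} (hf : Continuous f) (ρ : ℝ) : IntegrableOn f (ball (0 : V) ρ) :=
  (hf.continuousOn.integrableOn_compact (isCompact_closedBall 0 ρ)).mono_set ball_subset_closedBall

/-- the localised energy -/
noncomputable def EE (v : ℝ → V → V) (t : ℝ) : ℝ := ∫ z, nsq (v t) z * PH t z

lemma EE_nonneg (v : ℝ → V → V) (t : ℝ) : 0 ≤ EE v t :=
  integral_nonneg fun z => mul_nonneg (nsq_nonneg _ z) (PH_nonneg t z)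

lemma EE_eq (v : ℝ → V → V) (t : ℝ) :
    EE v t = (∫ z, nsq (v t) z * kap z ^ 2) * chi t ^ 2 := by
  unfold EE PH k2
  rw [← integral_mul_const]
  apply integral_congr_ae
  filter_upwards with z
  ring

lemma term2 {v : V → V} (hv : ContDiff ℝ ∞ v) {N L : ℝ} (hL : ∀ z, |lap k2 z| ≤ L)
    {t : ℝ} (hN : |deriv (fun s => chi s ^ 2) t| ≤ N) :
    ∫ z, nsq v z * (deriv (fun s => PH s z) t + lap (PH t) z) ≤ (N + L) * A2 0 2 v := by
  have e1 : ∀ z, deriv (fun s => PH s z) t + lap (PH t) z =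
      k2 z * deriv (fun s => chi s ^ 2) t + lap k2 z * chi t ^ 2 := by
    intro z
    have e2 : deriv (fun s => PH s z) t = k2 z * deriv (fun s => chi s ^ 2) t := by
      unfold PH
      rw [deriv_const_mul_field]
    have e3 : lap (PH t) z = lap k2 z * chi t ^ 2 := lap_mul_const k2_smooth _ z
    rw [e2, e3]
  simp_rw [e1]
  have hF : Continuous (fun z => k2 z * deriv (fun s => chi s ^ 2) t + lap k2 z * chi t ^ 2) :=
    (k2_cont.mul continuous_const).add ((lap_cont k2_smooth).mul continuous_const)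
  have hsub : closedBall (0 : V) 1 ⊆ ball (0 : V) 2 := closedBall_subset_ball (by norm_num)
  have hz0 : ∀ z ∉ ball (0 : V) 2,
      nsq v z * (k2 z * deriv (fun s => chi s ^ 2) t + lap k2 z * chi t ^ 2) = 0 := by
    intro z hz
    have h1 : z ∉ closedBall (0 : V) 1 := fun h => hz (hsub h)
    have h2 : z ∉ ball (0 : V) 1 := fun h => h1 (ball_subset_closedBall h)
    rw [k2_zero h2, lap_k2_zero h1]; ring
  rw [← setIntegral_eq_integral_of_forall_compl_eq_zero hz0]
  unfold A2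
  rw [← integral_const_mul]
  apply setIntegral_mono_on (intOn_ball ((nsq_cont hv).mul hF) 2)
    (intOn_ball (continuous_const.mul (nsq_cont hv)) 2) measurableSet_ball
  intro z _
  show nsq v z * (k2 z * deriv (fun s => chi s ^ 2) t + lap k2 z * chi t ^ 2) ≤
    (N + L) * nsq v z
  rw [mul_comm (N + L)]
  apply mul_le_mul_of_nonneg_left _ (nsq_nonneg v z)
  have h1 : k2 z * deriv (fun s => chi s ^ 2) t ≤ N := by
    calc k2 z * deriv (fun s => chi s ^ 2) t ≤ k2 z * N :=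
          mul_le_mul_of_nonneg_left ((le_abs_self _).trans hN) (k2_nonneg z)
      _ ≤ 1 * N := mul_le_mul_of_nonneg_right (k2_le_one z) ((abs_nonneg _).trans hN)
      _ = N := one_mul N
  have h2 : lap k2 z * chi t ^ 2 ≤ L := by
    have h3 : chi t ^ 2 ≤ 1 := by nlinarith [chi_nonneg t, chi_le_one t]
    calc lap k2 z * chi t ^ 2 ≤ L * chi t ^ 2 :=
          mul_le_mul_of_nonneg_right ((le_abs_self _).trans (hL z)) (sq_nonneg _)
      _ ≤ L * 1 := mul_le_mul_of_nonneg_left h3 ((abs_nonneg _).trans (hL z))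
      _ = L := mul_one L
  linarith

lemma G_nonneg {v : V → V} {q P : V → ℝ} {g : ℝ} (h : Slice v q P g) : 0 ≤ g :=
  le_trans (setIntegral_nonneg measurableSet_ball fun z _ => gsq_nonneg v z) h.grad

lemma deriv_bound (h1 : S_EN) (h2 : S_CUT) (h3 : S_POINC) : ∃ C₁ : ℝ, 0 < C₁ ∧
    ∀ (v : ℝ → V → V) (q : ℝ → V → ℝ) (G : ℝ → ℝ), Loc v q →
    (∀ t ∈ Ioo (-1 : ℝ) 0, ∃ P, Slice (v t) (q t) P (G t)) → ∀ t ∈ Ioo (-1 : ℝ) 0,
      ∃ D : ℝ, HasDerivAt (EE v) D t ∧ D ≤ C₁ * G t * (1 + √(EE v t)) := by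
  obtain ⟨Cc, hCc, hcut⟩ := h2
  obtain ⟨Cp, hCp, hpo⟩ := h3
  obtain ⟨L, hL0, hL⟩ := lap_k2_bound
  obtain ⟨N, hN0, hN⟩ := dchi_bound
  refine ⟨(N + L) * Cp + Cc, by positivity, ?_⟩
  intro v q G hloc hsl t ht
  obtain ⟨P, hP⟩ := hsl t ht
  have hG := G_nonneg hP
  have hd := h1 v q hloc (-1) 0 le_rfl le_rfl PH PH_smooth.contDiffOn
    (fun s _ z hz => by unfold PH; rw [k2_zero hz, zero_mul]) t ht
  refine ⟨_, hd, ?_⟩
  have t1 : 0 ≤ ∫ z, gsq (v t) z * PH t z :=
    integral_nonneg fun z => mul_nonneg (gsq_nonneg _ z) (PH_nonneg t z)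
  have t2 := term2 hP.sv hL (hN t ht)
  have t2' : (N + L) * A2 0 2 (v t) ≤ (N + L) * Cp * G t := by
    rw [mul_assoc]
    apply mul_le_mul_of_nonneg_left _ (by positivity)
    exact (hpo (v t) hP.sv hP.mean).trans (mul_le_mul_of_nonneg_left hP.grad hCp.le)
  have t3 : ∫ z, (nsq (v t) z + 2 * q t z) * adv (v t) (PH t) z ≤
      Cc * G t * (1 + √(EE v t)) := by
    have e1 : ∫ z, (nsq (v t) z + 2 * q t z) * adv (v t) (PH t) z =
        (∫ z, (nsq (v t) z + 2 * q t z) * adv (v t) (fun y => kap y ^ 2) z) * chi t ^ 2 := by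
      rw [← integral_mul_const]
      apply integral_congr_ae
      filter_upwards with z
      have : adv (v t) (PH t) z = adv (v t) (fun y => kap y ^ 2) z * chi t ^ 2 :=
        adv_mul_const (v t) k2_smooth _ z
      rw [this]; ring
    rw [e1]
    have e2 := hcut (v t) (q t) P (G t) hP
    have c1 := chi_nonneg t
    have c2 := chi_le_one t
    have e3 : √(∫ z, nsq (v t) z * kap z ^ 2) * chi t = √(EE v t) := by
      rw [EE_eq, Real.sqrt_mul' _ (sq_nonneg _), Real.sqrt_sq c1]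
    have e4 : 0 ≤ √(∫ z, nsq (v t) z * kap z ^ 2) := Real.sqrt_nonneg _
    have e5 : 0 ≤ √(EE v t) := Real.sqrt_nonneg _
    have e6 : (1 + √(∫ z, nsq (v t) z * kap z ^ 2)) * chi t ^ 2 ≤ 1 + √(EE v t) := by
      have : (1 + √(∫ z, nsq (v t) z * kap z ^ 2)) * chi t ^ 2 =
        chi t ^ 2 + √(EE v t) * chi t := by rw [← e3]; ring
      rw [this]
      nlinarith
    calc (∫ z, (nsq (v t) z + 2 * q t z) * adv (v t) (fun y => kap y ^ 2) z) * chi t ^ 2
        ≤ (Cc * G t * (1 + √(∫ z, nsq (v t) z * kap z ^ 2))) * chi t ^ 2 :=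
          mul_le_mul_of_nonneg_right ((le_abs_self _).trans e2) (sq_nonneg _)
      _ = Cc * G t * ((1 + √(∫ z, nsq (v t) z * kap z ^ 2)) * chi t ^ 2) := by ring
      _ ≤ _ := mul_le_mul_of_nonneg_left e6 (by positivity)
  have e5 : 0 ≤ √(EE v t) := Real.sqrt_nonneg _
  have t4 : (N + L) * Cp * G t ≤ (N + L) * Cp * G t * (1 + √(EE v t)) := by
    apply le_mul_of_one_le_right (by positivity)
    linarith
  have t5 : ((N + L) * Cp + Cc) * G t * (1 + √(EE v t)) =
      (N + L) * Cp * G t * (1 + √(EE v t)) + Cc * G t * (1 + √(EE v t)) := by ring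
  rw [t5]
  linarith

theorem t_BASE (h1 : S_EN) (h2 : S_CUT) (h3 : S_POINC) (_h4 : S_CT) : S_BASE := by
  obtain ⟨C₁, hC₁, hD⟩ := deriv_bound h1 h2 h3
  refine ⟨2 * C₁ + C₁ ^ 2, 1, by positivity, one_pos, ?_⟩
  intro ε hε hε1 v q G hyp t₁ ht₁
  obtain ⟨hloc, hsl, hGi, hGe⟩ := hyp
  have hG0 : ∀ t ∈ Ioo (-1 : ℝ) 0, 0 ≤ G t := fun t ht => by
    obtain ⟨P, hP⟩ := hsl t ht
    exact G_nonneg hP
  have hsub : Icc (-7 / 8 : ℝ) t₁ ⊆ Ioo (-1) 0 := by
    intro t ht
    exact ⟨by linarith [ht.1], by linarith [ht.2, ht₁.2]⟩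
  have hcont : ContinuousOn (EE v) (Icc (-7 / 8 : ℝ) t₁) := by
    intro t ht
    obtain ⟨D, hD1, _⟩ := hD v q G hloc hsl t (hsub ht)
    exact hD1.continuousAt.continuousWithinAt
  have hne : (Icc (-7 / 8 : ℝ) t₁).Nonempty := ⟨t₁, by linarith [ht₁.1], le_rfl⟩
  obtain ⟨ts, hts, hmax⟩ := isCompact_Icc.exists_isMaxOn hne hcont
  have hmax' : ∀ t ∈ Icc (-7 / 8 : ℝ) t₁, EE v t ≤ EE v ts := fun t ht => hmax ht
  have hS0 := EE_nonneg v ts
  have h0 : EE v (-7 / 8) = 0 := by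
    rw [EE_eq, chi_zero (by norm_num)]; ring
  have hsub2 : Icc (-7 / 8 : ℝ) ts ⊆ Icc (-7 / 8 : ℝ) t₁ := Icc_subset_Icc_right hts.2
  have hGi2 : IntegrableOn G (Icc (-7 / 8 : ℝ) ts) := hGi.mono_set (hsub2.trans hsub)
  -- the derivative
  have hkey : EE v ts - EE v (-7 / 8) ≤ ∫ y in (-7 / 8)..ts, C₁ * (1 + √(EE v ts)) * G y := by
    choose! D hD1 hD2 using hD v q G hloc hsl
    apply intervalIntegral.sub_le_integral_of_hasDeriv_right_of_le (g' := D) hts.1
      (hcont.mono hsub2)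
    · intro x hx
      exact (hD1 x (hsub (hsub2 (Ioo_subset_Icc_self hx)))).hasDerivWithinAt
    · exact hGi2.const_mul _
    · intro x hx
      have hx' := hsub2 (Ioo_subset_Icc_self hx)
      refine (hD2 x (hsub hx')).trans ?_
      have e1 : √(EE v x) ≤ √(EE v ts) := Real.sqrt_le_sqrt (hmax' x hx')
      have e2 := hG0 x (hsub hx')
      calc C₁ * G x * (1 + √(EE v x)) ≤ C₁ * G x * (1 + √(EE v ts)) :=
            mul_le_mul_of_nonneg_left (by linarith) (by positivity)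
        _ = _ := by ring
  have hint : ∫ y in (-7 / 8)..ts, G y ≤ ε := by
    rw [intervalIntegral.integral_of_le hts.1]
    refine le_trans ?_ hGe
    apply setIntegral_mono_set hGi
    · exact (ae_restrict_iff' measurableSet_Ioo).2 (Filter.Eventually.of_forall hG0)
    · exact (Ioc_subset_Icc_self.trans (hsub2.trans hsub)).eventuallyLE
  rw [intervalIntegral.integral_const_mul, h0, sub_zero] at hkey
  have hS : EE v ts ≤ (2 * C₁ + C₁ ^ 2) * ε := by
    obtain ⟨r, hr, hrS⟩ : ∃ r : ℝ, 0 ≤ r ∧ EE v ts = r ^ 2 :=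
      ⟨√(EE v ts), Real.sqrt_nonneg _, (Real.sq_sqrt hS0).symm⟩
    rw [hrS, Real.sqrt_sq hr] at hkey
    rw [hrS]
    have e1 : C₁ * (1 + r) * ∫ y in (-7 / 8)..ts, G y ≤ C₁ * (1 + r) * ε :=
      mul_le_mul_of_nonneg_left hint (by positivity)
    have e2 : r ^ 2 ≤ C₁ * (1 + r) * ε := hkey.trans e1
    have e3 : (C₁ * ε - r) ^ 2 ≥ 0 := sq_nonneg _
    have e4 : C₁ ^ 2 * ε ^ 2 ≤ C₁ ^ 2 * ε := by
      apply mul_le_mul_of_nonneg_left _ (by positivity)
      nlinarith
    nlinarith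
  refine le_trans ?_ ((hmax' t₁ ⟨by linarith [ht₁.1], le_rfl⟩).trans hS)
  -- the conclusion
  have hsm : ContDiff ℝ ∞ (v t₁) := by
    obtain ⟨P, hP⟩ := hsl t₁ ⟨by linarith [ht₁.1], ht₁.2⟩
    exact hP.sv
  have hk : EE v t₁ = ∫ z, nsq (v t₁) z * k2 z := by
    rw [EE_eq, chi_one ht₁.1.le]
    simp [k2]
  rw [hk]
  have hcs : HasCompactSupport k2 :=
    HasCompactSupport.of_support_subset_isCompact (isCompact_closedBall (0 : V) 1)
      ((subset_tsupport _).trans k2_tsupport)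
  have hint2 : Integrable (fun z => nsq (v t₁) z * k2 z) :=
    ((nsq_cont hsm).mul k2_cont).integrable_of_hasCompactSupport hcs.mul_left
  have e1 : A2 0 (3 / 4) (v t₁) = ∫ z in ball (0 : V) (3 / 4), nsq (v t₁) z * k2 z := by
    unfold A2
    apply setIntegral_congr_fun measurableSet_ball
    intro z hz
    simp only
    rw [k2_one hz, mul_one]
  rw [e1]
  exact setIntegral_le_integral hint2
    (Filter.Eventually.of_forall fun z => mul_nonneg (nsq_nonneg _ z) (k2_nonneg z))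

end W605.MD
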